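import Pool.Agent.H13.DEV.Targets
import Pool.Agent.H23.QCF.All

set_option autoImplicit false

open Polynomial NumberField IsDedekindDomain Pool.Agent.H32.QC Pool.Agent.H34.N6
  Pool.Agent.H13.DEV

namespace Pool.Agent.H13.N6E

section
variable {k L : Type} [Field k] [NumberField k] [Field L] [NumberField L] [Algebra k L]

theorem gen_root {P : k[X]} {e : L} (h : Gen P e) : aeval e P = 0 := by
  rw [← h.mp]; exact minpoly.aeval k e

theorem gen_poly {P : k[X]} {e : L} (h : Gen P e) (z : L) : ∃ Q : k[X], aeval e Q = z := by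
  have hint : IsIntegral k e := Algebra.IsIntegral.isIntegral e
  have h1 : z ∈ (IntermediateField.adjoin k {e}).toSubalgebra := by
    rw [h.adj]; trivial
  rw [IntermediateField.adjoin_simple_toSubalgebra_of_isAlgebraic hint.isAlgebraic] at h1
  rw [Algebra.adjoin_singleton_eq_range_aeval] at h1
  exact h1

theorem gen_nsq {P D : k[X]} {e : L} (h : Gen P e) (hn : ¬ SqMod P D) :
    ¬ IsSquare (aeval e D) := by
  rintro ⟨s, hs⟩
  obtain ⟨Q, hQ⟩ := gen_poly h s
  apply hn
  refine ⟨Q, ?_⟩
  rw [← h.mp]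
  apply minpoly.dvd
  rw [map_sub, map_pow, hQ, hs]
  ring

theorem gen_ne {P G : k[X]} {e : L} (h : Gen P e) (hc : IsCoprime G P) :
    aeval e G ≠ 0 := by
  obtain ⟨a, b, hab⟩ := hc
  intro h0
  have := congrArg (aeval e) hab
  rw [map_add, map_mul, map_mul, h0, gen_root h, mul_zero, mul_zero, add_zero, map_one] at this
  exact zero_ne_one this

end

end Pool.Agent.H13.N6E
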