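import Pool.Agent.H13.N6E.Part
import Pool.Agent.H12.N6E.ETHD
import Pool.Agent.H32.N6E.EKAP
import Pool.Agent.H32.N6E.EGST
import Pool.Agent.H41.N6E.PMU
import Pool.Agent.H99.N6E.EETA

/-!
# Block E: the device, without hypotheses
-/

set_option autoImplicit false

open Pool.Agent.H13.DEV

namespace Pool.Agent.H13.N6E

theorem dKAP : T_KAP := Pool.Agent.H32.N6E.pf_KAP
theorem dETA : T_ETA := Pool.Agent.H99.N6E.pf_ETA dKAP dLTG dFAR dFIN
theorem dPMU : T_PMU := Pool.Agent.H41.N6E.pf_PMU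
theorem dODF : T_ODF := Pool.Agent.H41.N6E.pf_ODF dEXA
theorem dGST : T_GST := Pool.Agent.H32.N6E.pf_GST dFAC dBEL
theorem dTHD : T_THD := Pool.Agent.H12.N6E.pf_THD dETA dCFI dCFC dCFR dHPO dPMU dFIN dBEL
theorem dPAR : T_PAR :=
  pf_PAR dPRI dTHD dALW dGST dSTP dFIB dBD1 dIPL dBD2 dBD3 dFIN dBEL dNRT

/-- the device -/
theorem dev : Pool.Agent.H34.N6.T_DEV := pf_DEV dPAR dPRI dTHD dALW dEXA dODF

end Pool.Agent.H13.N6E
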