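import Pool.Agent.H13.N6E.Base

set_option autoImplicit false

open Polynomial NumberField IsDedekindDomain Pool.Agent.H32.QC Pool.Agent.H34.N6
  Pool.Agent.H13.DEV

namespace Pool.Agent.H13.N6E

theorem pf_DEV (hPAR : T_PAR) (hPRI : T_PRI) (hTHD : T_THD) (hALW : T_ALW) (hEXA : T_EXA)
    (hODF : T_ODF) : T_DEV := by
  intro k _ _ P D hmon hirr hndv hnsq R S N G ε hgood hreal hodd hle hloc hone hpos hneg hspl
  have H : Hyp P D R S N G ε :=
    ⟨hmon, hirr, hndv, hnsq, hgood, hreal, hodd, hle, hloc, hone, hpos, hneg, hspl⟩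
  obtain ⟨L, _, _, _, e, hg, -⟩ := hEXA k P hmon hirr
  obtain ⟨p, hp⟩ := hPRI k P D S hirr hndv
  have hsg := hPAR k L P D e R S N G ε H hg
  obtain ⟨G', hO⟩ := hTHD k L P D e S N p G ε hmon hg (gen_nsq hg hnsq) hgood hreal hle
    hp.prime hp.off (fun v hv => ⟨(hloc v hv).1, (hloc v hv).2.1, (hloc v hv).2.2.1,
      gen_ne hg (hloc v hv).2.2.2.1⟩) hsg
  obtain ⟨K, _, _, _, θ, hodd', hadj, hroot⟩ := hODF k G' hO.mon (by rw [hO.deg]; exact hodd)
  obtain ⟨hP, hall⟩ := hALW k L P D e R S S N p G G ε ε G' H hg (Finset.Subset.refl S) hp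
    (fun v _ => ⟨rfl, le_refl _⟩) hO K θ hadj hroot
  exact ⟨K, _, _, _, θ, G', hodd', hadj, hP, fun w => hall w id, hroot, hO.mon, hO.deg, hO.close⟩

end Pool.Agent.H13.N6E
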