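import Pool.Agent.H13.N6E.Base
import Pool.Agent.H34.N6.LibC

set_option autoImplicit false

open Polynomial NumberField IsDedekindDomain Pool.Agent.H32.QC Pool.Agent.H34.N6
  Pool.Agent.H13.DEV

namespace Pool.Agent.H13.N6E

theorem hil_pm {F : Type*} [Field F] (a b : F) : hil a b = 1 ∨ hil a b = -1 := by
  unfold hil; split_ifs <;> simp

theorem hs_pm {K : Type} [Field K] [NumberField K] (v : Pl K) (a b : K) :
    hs v a b = 1 ∨ hs v a b = -1 := by
  cases v with
  | inl v => exact hil_pm _ _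
  | inr φ => exact hil_pm _ _

section
variable {k L : Type} [Field k] [NumberField k] [Field L] [NumberField L] [Algebra k L]

theorem sg_pm (D : k[X]) (e : L) (S : Finset (Pl k)) (G : Pl k → k[X]) :
    sg D e S G = 1 ∨ sg D e S G = -1 := by
  unfold sg
  apply finprod_induction (fun x : ℤ => x = 1 ∨ x = -1)
  · exact Or.inl rfl
  · rintro x y (rfl | rfl) (rfl | rfl) <;> simp
  · intro w
    apply finprod_induction (fun x : ℤ => x = 1 ∨ x = -1)
    · exact Or.inl rfl
    · rintro x y (rfl | rfl) (rfl | rfl) <;> simp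
    · intro _
      exact hs_pm _ _ _

theorem fin_over (hFIN : T_FIN) (S : Finset (Pl k)) :
    {w : Pl L | bel (k := k) w ∈ S}.Finite := by
  have h : {w : Pl L | bel (k := k) w ∈ S} ⊆ ⋃ v ∈ S, {w : Pl L | bel (k := k) w = v} := by
    intro w hw
    simp only [Set.mem_iUnion]
    exact ⟨bel (k := k) w, hw, rfl⟩
  exact (S.finite_toSet.biUnion fun v _ => (hFIN k L).1 v).subset h

open Classical in
theorem sg_insert (hFIN : T_FIN) (D : k[X]) (e : L) (S : Finset (Pl k)) (G : Pl k → k[X])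
    (v : Pl k) (hv : v ∉ S) (Gs : k[X]) :
    sg D e (insert v S) (Function.update G v Gs) =
      (∏ᶠ (w : Pl L) (_ : bel (k := k) w = v), hs w (aeval e Gs) (aeval e D)) * sg D e S G := by
  unfold sg
  have hset : {w : Pl L | bel (k := k) w ∈ insert v S} =
      {w : Pl L | bel (k := k) w = v} ∪ {w : Pl L | bel (k := k) w ∈ S} := by
    ext w
    simp [Finset.mem_insert]
  have hd : Disjoint {w : Pl L | bel (k := k) w = v} {w : Pl L | bel (k := k) w ∈ S} := by
    rw [Set.disjoint_left]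
    intro w hw hw'
    have h1 : bel (k := k) w = v := hw
    have h2 : bel (k := k) w ∈ S := hw'
    rw [h1] at h2
    exact hv h2
  have h0 := finprod_mem_union (f := fun w : Pl L => hs w
    (aeval e ((Function.update G v Gs) (bel (k := k) w))) (aeval e D)) hd
    ((hFIN k L).1 v) (fin_over hFIN S)
  rw [← hset] at h0
  refine Eq.trans h0 ?_
  congr 1
  · apply finprod_mem_congr rfl
    intro w hw
    have h1 : bel (k := k) w = v := hw
    rw [h1, Function.update_self]
  · apply finprod_mem_congr rfl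
    intro w hw
    have h2 : bel (k := k) w ∈ S := hw
    rw [Function.update_of_ne]
    intro h3
    rw [h3] at h2
    exact hv h2

end

set_option maxHeartbeats 1000000 in
theorem pf_PAR (hPRI : T_PRI) (hTHD : T_THD) (hALW : T_ALW) (hGST : T_GST) (hSTP : T_STP)
    (hFIB : T_FIB) (hBD1 : T_BD1) (hIPL : T_IPL) (hBD2 : T_BD2) (hBD3 : T_BD3) (hFIN : T_FIN)
    (hBEL : T_BEL) (hNRT : T_NRT) : T_PAR := by
  classical
  intro k L _ _ _ _ _ P D e R S N G ε H hg
  by_contra hne
  have hsgn : sg D e S G = -1 := (sg_pm D e S G).resolve_left hne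
  have hδ : ¬ IsSquare (aeval e D) := gen_nsq hg H.nsq
  -- the auxiliary value
  obtain ⟨c, hc⟩ : ∃ c : ℕ, eval (c : k) P ≠ 0 := by
    by_contra hcon
    push Not at hcon
    have hinf : (Set.range fun c : ℕ => (c : k)).Infinite :=
      Set.infinite_range_of_injective Nat.cast_injective
    have h0 : P = 0 := by
      apply Polynomial.eq_zero_of_infinite_isRoot
      apply hinf.mono
      rintro x ⟨n, rfl⟩
      exact hcon n
    exact H.mon.ne_zero h0
  -- the finite set to avoid
  have hF1 : {w : FPl L | Sum.inl (w.under (𝓞 k)) ∈ S}.Finite := by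
    have h1 := fin_over (k := k) (L := L) hFIN S
    have h2 : {w : FPl L | Sum.inl (w.under (𝓞 k)) ∈ S} =
        (Sum.inl : FPl L → Pl L) ⁻¹' {w : Pl L | bel (k := k) w ∈ S} := rfl
    rw [h2]
    exact h1.preimage Sum.inl_injective.injOn
  have hF2 : {w : FPl L | ‖ic (w.under (𝓞 k)) (eval (c : k) P)‖ ≠ 1}.Finite := by
    apply ((hFIN k L).2.2 (algebraMap k L (eval (c : k) P)) (by simpa using hc)).subset
    intro w hw hw1
    apply hw
    obtain ⟨h1, h2⟩ := (hBEL k L w).1 (eval (c : k) P)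
    have h3 : ‖kc k w (eval (c : k) P)‖ = 1 := hw1
    apply le_antisymm (h1.1 h3.le)
    by_contra h4
    push Not at h4
    exact absurd (h2.2 h4) (by rw [h3]; exact lt_irrefl _)
  obtain ⟨ws, hws, hwF⟩ := ((Pool.Agent.H23.QCF.All.inert L (aeval e D) hδ).sdiff
    (hF1.union hF2)).nonempty
  have hns : ¬ IsSquare (ic ws (aeval e D)) := hws
  have hvs : Sum.inl (ws.under (𝓞 k)) ∉ S := fun h => hwF (Or.inl h)
  have hc2 : ‖ic (ws.under (𝓞 k)) (eval (c : k) P)‖ = 1 := by
    by_contra h
    exact hwF (Or.inr h)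
  have hc1 : ‖ic (ws.under (𝓞 k)) (c : k)‖ ≤ 1 := by
    rw [norm_ic_le_one_iff]
    have h : (c : k) = algebraMap (𝓞 k) k (c : 𝓞 k) := (map_natCast (algebraMap (𝓞 k) k) c).symm
    rw [h]
    exact HeightOneSpectrum.valuation_le_one _ _
  have hgood := H.good _ hvs
  obtain ⟨Gs, hGs⟩ := hGST k L P D e ws N (c : k) H.mon hg hgood H.le hc1 hc2
  obtain ⟨ε1, hε1, hST⟩ := hSTP k L P e ws N Gs H.mon hgood.intP (gen_root hg) hGs
  obtain ⟨p, hp⟩ := hPRI k P D (insert (Sum.inl (ws.under (𝓞 k))) S) H.irr H.ndv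
  have hfib := hFIB k L P D e ws N Gs H.mon hg hgood hGs hns
  have hsg' : sg D e (insert (Sum.inl (ws.under (𝓞 k))) S)
      (Function.update G (Sum.inl (ws.under (𝓞 k))) Gs) = 1 := by
    rw [sg_insert hFIN D e S G _ hvs Gs, hfib, hsgn]
    norm_num
  have hGs0 : aeval e Gs ≠ 0 := by
    intro h0
    obtain ⟨x, hx0, hx1⟩ := exists_small ws
    have h1 := hGs.mx x hx1
    rw [h0, map_zero, norm_zero] at h1
    exact hx0 (norm_le_zero_iff.1 h1)
  obtain ⟨G', hO⟩ := hTHD k L P D e (insert (Sum.inl (ws.under (𝓞 k))) S) N p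
    (Function.update G (Sum.inl (ws.under (𝓞 k))) Gs)
    (Function.update ε (Sum.inl (ws.under (𝓞 k))) ε1) H.mon hg hδ
    (fun v hv => H.good v fun h => hv (Finset.mem_insert_of_mem h))
    (fun φ => Finset.mem_insert_of_mem (H.real φ)) H.le hp.prime hp.off
    (by
      intro v hv
      by_cases hv1 : v = Sum.inl (ws.under (𝓞 k))
      · subst hv1
        rw [Function.update_self, Function.update_self]
        exact ⟨hε1, hGs.mon, hGs.deg, hGs0⟩
      · rw [Function.update_of_ne hv1, Function.update_of_ne hv1]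
        have hv2 : v ∈ S := (Finset.mem_insert.1 hv).resolve_left hv1
        exact ⟨(H.loc v hv2).1, (H.loc v hv2).2.1, (H.loc v hv2).2.2.1,
          gen_ne hg (H.loc v hv2).2.2.2.1⟩) hsg'
  have hST' : Star e N ws G' := by
    apply hST G' hO.mon hO.deg
    have h1 := hO.close _ (Finset.mem_insert_self _ _)
    rw [Function.update_self, Function.update_self] at h1
    exact h1
  obtain ⟨K, _, _, _, θ, f, hadj, hroot, hfk, hfθ⟩ :=
    hBD1 k L P e ws N G' H.mon hgood.intP (gen_root hg) hST'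
  obtain ⟨w₀, h, hh, hhf, hw0⟩ := hIPL k K L ws f hfk
  have hkc : ∀ x : k, h (kc k w₀ x) = kc k ws x := by
    intro x
    have h1 : kc k w₀ x = ic w₀ (algebraMap k K x) := rfl
    rw [h1, hhf, hfk]
  have hθ : ‖h (ic w₀ θ) - ic ws e‖ < 1 := by rw [hhf]; exact hfθ
  obtain ⟨e', he', hlt, hmx, hns'⟩ := hBD2 k L K P D e ws N G' θ w₀ h H.mon (gen_root hg) hgood
    hST' hns hroot hh hkc hθ
  obtain ⟨hP, hall⟩ := hALW k L P D e R S (insert (Sum.inl (ws.under (𝓞 k))) S) N p G
    (Function.update G (Sum.inl (ws.under (𝓞 k))) Gs) ε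
    (Function.update ε (Sum.inl (ws.under (𝓞 k))) ε1) G' H hg (Finset.subset_insert _ _) hp
    (by
      intro v hv
      have hv1 : v ≠ Sum.inl (ws.under (𝓞 k)) := by
        rintro rfl
        exact hvs hv
      rw [Function.update_of_ne hv1, Function.update_of_ne hv1]
      exact ⟨rfl, le_refl _⟩) hO K θ hadj hroot
  have hle : ∀ w : FPl K, w.under (𝓞 k) = ws.under (𝓞 k) → ‖ic w θ‖ ≤ 1 := by
    intro w hw
    exact (hNRT k L K P G' e θ w hg H.mon (by rw [hw]; exact hgood.intP) hO.mon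
      (by rw [hw]; exact hST'.int) hroot).1
  have hbad : ¬ R K (Sum.inl w₀) θ :=
    H.neg K w₀ θ (by rw [hw0]; exact hvs) (hle w₀ hw0) hP ⟨e', he', hlt, hmx, hns'⟩
  apply hbad
  apply H.one K θ w₀ hP
  intro w hw
  by_cases hb : bel (k := k) w = Sum.inl (ws.under (𝓞 k))
  · cases w with
    | inr φ => exact absurd hb (by simp [bel])
    | inl w1 =>
      have hu : w1.under (𝓞 k) = ws.under (𝓞 k) := Sum.inl_injective hb
      apply H.pos K w1 θ (by rw [hu]; exact hvs) (hle w1 hu) hP
      intro e1 he1 hlt1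
      have h1 := hBD3 k L K P e ws N G' θ w₀ h H.mon hg hgood.intP hST' hadj hroot hh hkc hθ
        w1 hu e1 he1 hlt1
      exact absurd (by rw [h1]) hw
  · apply hall w
    intro hm
    exact (Finset.mem_insert.1 hm).resolve_left hb

end Pool.Agent.H13.N6E
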