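import Pool.Agent.H13.N6E.EDEV
import Pool.Agent.H13.N6E.EPAR
import Pool.Agent.H69.N6E.ALW
import Pool.Agent.H69.N6E.NRT
import Pool.Agent.H81.N6E.EBD1
import Pool.Agent.H81.N6E.EBD3
import Pool.Agent.H23.N6E.EBD2
import Pool.Agent.H23.N6E.ECFI
import Pool.Agent.H23.N6E.EHEN
import Pool.Agent.H14.N6E.EBEL
import Pool.Agent.H14.N6E.EHOM
import Pool.Agent.H5.N6E.ECF
import Pool.Agent.H5.N6E.EHPO
import Pool.Agent.H5.N6E.ERED
import Pool.Agent.H89.N6E.EXA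
import Pool.Agent.H99.N6E.EFAC
import Pool.Agent.H32.N6E.EFAR
import Pool.Agent.H43.N6E.EFIB
import Pool.Agent.H43.N6E.EFIN
import Pool.Agent.H46.N6E.IPL
import Pool.Agent.H46.N6E.PRI
import Pool.Agent.H46.N6E.STP
import Pool.Agent.H83.N6E.ELTG
import Pool.Agent.H79.N6E.EPLE
import Pool.Agent.H50.N6E.ERTH
import Pool.Agent.H59.N6E.ESPP
import Pool.Agent.H59.N6E.ETRI
import Pool.Agent.H17.N6E.EUNQ

/-!
# Block E: assembly of the finished rows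
-/

set_option autoImplicit false

open Pool.Agent.H13.DEV

namespace Pool.Agent.H13.N6E

theorem dRTH : T_RTH := Pool.Agent.H50.N6E.pf_RTH
theorem dEXA : T_EXA := Pool.Agent.H89.N6E.pf_EXA
theorem dFIN : T_FIN := Pool.Agent.H43.N6E.pf_FIN
theorem dBEL : T_BEL := Pool.Agent.H14.N6E.pf_BEL
theorem dHOM : T_HOM := Pool.Agent.H14.N6E.pf_HOM
theorem dUNQ : T_UNQ := Pool.Agent.H17.N6E.pf_UNQ
theorem dIPL : T_IPL := Pool.Agent.H46.N6E.pf_IPL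
theorem dPLE : T_PLE := Pool.Agent.H79.N6E.pf_PLE dRTH dIPL
theorem dHEN : T_HEN := Pool.Agent.H23.N6E.pf_HEN
theorem dTRI : T_TRI := Pool.Agent.H59.N6E.pf_TRI
theorem dCFI : T_CFI := Pool.Agent.H23.N6E.pf_CFI dTRI dBEL
theorem dCFC : T_CFC := Pool.Agent.H5.N6E.pf_CFC dTRI dBEL dFIN
theorem dCFR : T_CFR := Pool.Agent.H5.N6E.pf_CFR
theorem dLTG : T_LTG := Pool.Agent.H83.N6E.pf_LTG
theorem dFAR : T_FAR := Pool.Agent.H32.N6E.pf_FAR dHEN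
theorem dHPO : T_HPO := Pool.Agent.H5.N6E.pf_HPO
theorem dSPP : Pool.Agent.H34.N6.T_SPP := Pool.Agent.H59.N6E.pf_SPP
theorem dPRI : T_PRI := Pool.Agent.H46.N6E.pf_PRI dSPP
theorem dNRT : T_NRT := Pool.Agent.H69.N6E.pf_NRT dPLE dHOM
theorem dALW : T_ALW := Pool.Agent.H69.N6E.pf_ALW dNRT dHOM dBEL
theorem dRED : T_RED := Pool.Agent.H5.N6E.pf_RED
theorem dFAC : T_FAC := Pool.Agent.H99.N6E.pf_FAC dRED dCFI dBEL dFIN
theorem dSTP : T_STP := Pool.Agent.H46.N6E.pf_STP dBEL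
theorem dFIB : T_FIB := Pool.Agent.H43.N6E.pf_FIB dFIN dBEL
theorem dBD1 : T_BD1 := Pool.Agent.H81.N6E.pf_BD1 dHEN dEXA dRTH dBEL
theorem dBD2 : T_BD2 := Pool.Agent.H23.N6E.pf_BD2 dHEN dHOM dBEL
theorem dBD3 : T_BD3 := Pool.Agent.H81.N6E.pf_BD3 dPLE dNRT dHOM dUNQ dHEN dBEL

end Pool.Agent.H13.N6E
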